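import Pool.Agent.Helper19.HO.Defs

/-!
# Project HO, piece HO-6: odd nonvanishing maps are onto

`surj_of_odd_of` takes the Borsuk-Ulam statement (HO-5) as an explicit hypothesis.
-/

open MeasureTheory Set Metric Filter Module
open scoped NNReal Topology RealInnerProductSpace ENNReal Real ContDiff Manifold

namespace Pool.Agent.Helper19.HO

/-- Odd nonvanishing positively homogeneous maps are onto, given the Borsuk-Ulam theorem in
dimension `n + 1 = dim E`. -/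
theorem surj_of_odd_of
    (BU : ∀ (n : ℕ) (f : (Fin (n + 1) → ℝ) → (Fin n → ℝ)), ContinuousOn f {0}ᶜ →
      (∀ y, y ≠ 0 → f (-y) = -f y) → ∃ y, y ≠ 0 ∧ f y = 0)
    {E : Type*} [NormedAddCommGroup E] [InnerProductSpace ℝ E]
    [FiniteDimensional ℝ E] {F : E → E} (hF : ContinuousOn F {0}ᶜ)
    (hom : ∀ (y : E) (t : ℝ), 0 < t → F (t • y) = t • F y) (hodd : ∀ y, F (-y) = -F y)
    (h0 : ∀ y, y ≠ 0 → F y ≠ 0) : ∀ z, z ≠ 0 → ∃ y, y ≠ 0 ∧ F y = z := by
  intro z hz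
  have hnt : Nontrivial E := ⟨⟨z, 0, hz⟩⟩
  obtain ⟨n, hn⟩ : ∃ n, finrank ℝ E = n + 1 :=
    ⟨finrank ℝ E - 1, by have := Module.finrank_pos (R := ℝ) (M := E); omega⟩
  have hperp : finrank ℝ (ℝ ∙ z)ᗮ = n := by
    have : Fact (finrank ℝ E = n + 1) := ⟨hn⟩
    exact Submodule.finrank_orthogonal_span_singleton hz
  -- the two coordinate systems
  let φ : (Fin (n + 1) → ℝ) ≃L[ℝ] E :=
    (LinearEquiv.ofFinrankEq (Fin (n + 1) → ℝ) E (by simp [hn])).toContinuousLinearEquiv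
  let ψ : (ℝ ∙ z)ᗮ ≃L[ℝ] (Fin n → ℝ) :=
    (LinearEquiv.ofFinrankEq (ℝ ∙ z)ᗮ (Fin n → ℝ) (by simp [hperp])).toContinuousLinearEquiv
  let prj : E →L[ℝ] (Fin n → ℝ) :=
    (ψ : (ℝ ∙ z)ᗮ →L[ℝ] (Fin n → ℝ)) ∘L (ℝ ∙ z)ᗮ.orthogonalProjectionOnto
  have hprj : ∀ w, prj w = 0 → w ∈ (ℝ ∙ z) := by
    intro w hw
    have h1 : ψ ((ℝ ∙ z)ᗮ.orthogonalProjectionOnto w) = 0 := hw
    have h2 : (ℝ ∙ z)ᗮ.orthogonalProjectionOnto w = 0 := by
      have := (map_eq_zero_iff ψ ψ.injective).1 h1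
      exact this
    have h3 : w ∈ (ℝ ∙ z)ᗮᗮ := (Submodule.orthogonalProjectionOnto_eq_zero_iff).1 h2
    rwa [Submodule.orthogonal_orthogonal] at h3
  obtain ⟨y, hy, hy0⟩ := BU n (fun x => prj (F (φ x)))
    (by
      refine prj.continuous.comp_continuousOn (hF.comp φ.continuous.continuousOn ?_)
      intro x hx
      simp only [mem_compl_iff, mem_singleton_iff] at hx ⊢
      intro h
      exact hx ((map_eq_zero_iff φ φ.injective).1 h))
    (by
      intro x _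
      show prj (F (φ (-x))) = -prj (F (φ x))
      rw [map_neg, hodd, map_neg])
  have hφy : φ y ≠ 0 := by
    intro h
    exact hy ((map_eq_zero_iff φ φ.injective).1 h)
  obtain ⟨c, hc⟩ := Submodule.mem_span_singleton.1 (hprj _ hy0)
  have hc0 : c ≠ 0 := by
    rintro rfl
    rw [zero_smul] at hc
    exact h0 _ hφy hc.symm
  rcases lt_or_gt_of_ne hc0 with hneg | hpos
  · refine ⟨(-c)⁻¹ • (-(φ y)), ?_, ?_⟩
    · exact smul_ne_zero (inv_ne_zero (by linarith)) (neg_ne_zero.2 hφy)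
    · rw [hom _ _ (inv_pos.2 (by linarith)), hodd, ← hc, ← neg_smul, smul_smul,
        inv_mul_cancel₀ (by linarith), one_smul]
  · refine ⟨c⁻¹ • φ y, ?_, ?_⟩
    · exact smul_ne_zero (inv_ne_zero hc0) hφy
    · rw [hom _ _ (inv_pos.2 hpos), ← hc, smul_smul, inv_mul_cancel₀ hc0, one_smul]

end Pool.Agent.Helper19.HO
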